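import Mathlib

/-!
# Van der Corput's second derivative bound for two exponentials, uniformly in the rates

`f t = A exp (a t) + B exp (b t)` on an interval of length at most one. No splitting into
intervals: with `S ^ 2 = max |A| |B|` everything is bounded by
`∫ |f''| / (f' ^ 2 + S ^ 2) ≤ 2 π / S`, which holds since `f''` changes its sign at most once.
-/

set_option autoImplicit false

open MeasureTheory Set

namespace Pool.Agent.H88.WY

noncomputable section

/-- one piece on which `f''` has constant sign -/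
theorem var_piece (f1 f2 : ℝ → ℝ) (h2 : ∀ t, HasDerivAt f1 (f2 t) t) (hc : Continuous f2)
    {S u v : ℝ} (hS : 0 < S) (huv : u ≤ v)
    (hs : (∀ t ∈ Icc u v, 0 ≤ f2 t) ∨ (∀ t ∈ Icc u v, f2 t ≤ 0)) :
    ∫ t in u..v, |f2 t| / (f1 t ^ 2 + S ^ 2) ≤ Real.pi / S := by
  have hc1 : Continuous f1 := continuous_iff_continuousAt.2 fun t => (h2 t).continuousAt
  have hpos : ∀ t, 0 < f1 t ^ 2 + S ^ 2 := fun t => by positivity
  have hd : ∀ t, HasDerivAt (fun t => Real.arctan (f1 t / S) / S)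
      (f2 t / (f1 t ^ 2 + S ^ 2)) t := by
    intro t
    refine ((((h2 t).div_const S).arctan).div_const S).congr_deriv ?_
    have := (hpos t).ne'
    field_simp
    ring
  have hint : ∫ t in u..v, f2 t / (f1 t ^ 2 + S ^ 2) =
      Real.arctan (f1 v / S) / S - Real.arctan (f1 u / S) / S := by
    refine intervalIntegral.integral_eq_sub_of_hasDerivAt (fun t _ => hd t) ?_
    refine Continuous.intervalIntegrable ?_ _ _
    exact hc.div (by fun_prop) fun t => (hpos t).ne'
  have hb : |Real.arctan (f1 v / S) / S - Real.arctan (f1 u / S) / S| ≤ Real.pi / S := by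
    rw [← sub_div, abs_div, abs_of_pos hS]
    refine div_le_div_of_nonneg_right ?_ hS.le
    have e1 := Real.arctan_lt_pi_div_two (f1 v / S)
    have e2 := Real.neg_pi_div_two_lt_arctan (f1 v / S)
    have e3 := Real.arctan_lt_pi_div_two (f1 u / S)
    have e4 := Real.neg_pi_div_two_lt_arctan (f1 u / S)
    rw [abs_le]
    constructor <;> linarith
  rcases hs with hs | hs
  · have e : ∫ t in u..v, |f2 t| / (f1 t ^ 2 + S ^ 2) = ∫ t in u..v, f2 t / (f1 t ^ 2 + S ^ 2) := by
      refine intervalIntegral.integral_congr fun t ht => ?_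
      rw [uIcc_of_le huv] at ht
      simp only [abs_of_nonneg (hs t ht)]
    rw [e, hint]
    exact (le_abs_self _).trans hb
  · have e : ∫ t in u..v, |f2 t| / (f1 t ^ 2 + S ^ 2) =
        ∫ t in u..v, -(f2 t / (f1 t ^ 2 + S ^ 2)) := by
      refine intervalIntegral.integral_congr fun t ht => ?_
      rw [uIcc_of_le huv] at ht
      simp only [abs_of_nonpos (hs t ht), neg_div]
    rw [e, intervalIntegral.integral_neg, hint]
    exact (neg_le_abs _).trans hb

/-- two pieces -/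
theorem var_two (f1 f2 : ℝ → ℝ) (h2 : ∀ t, HasDerivAt f1 (f2 t) t) (hc : Continuous f2)
    {S u v w : ℝ} (hS : 0 < S) (huw : u ≤ w) (hwv : w ≤ v)
    (hs : (∀ t ∈ Icc u w, 0 ≤ f2 t) ∨ (∀ t ∈ Icc u w, f2 t ≤ 0))
    (hs' : (∀ t ∈ Icc w v, 0 ≤ f2 t) ∨ (∀ t ∈ Icc w v, f2 t ≤ 0)) :
    ∫ t in u..v, |f2 t| / (f1 t ^ 2 + S ^ 2) ≤ 2 * Real.pi / S := by
  have hc1 : Continuous f1 := continuous_iff_continuousAt.2 fun t => (h2 t).continuousAt
  have hpos : ∀ t, 0 < f1 t ^ 2 + S ^ 2 := fun t => by positivity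
  have hcont : Continuous fun t => |f2 t| / (f1 t ^ 2 + S ^ 2) :=
    hc.abs.div (by fun_prop) fun t => (hpos t).ne'
  rw [← intervalIntegral.integral_add_adjacent_intervals
    (hcont.intervalIntegrable u w) (hcont.intervalIntegrable w v)]
  have h3 := var_piece f1 f2 h2 hc hS huw hs
  have h4 := var_piece f1 f2 h2 hc hS hwv hs'
  have e : 2 * Real.pi / S = Real.pi / S + Real.pi / S := by ring
  rw [e]
  exact add_le_add h3 h4

/-- the analytic core -/
theorem vdc_core (f f1 f2 : ℝ → ℝ) (h1 : ∀ t, HasDerivAt f (f1 t) t)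
    (h2 : ∀ t, HasDerivAt f1 (f2 t) t) (hc : Continuous f2)
    {S κ u v : ℝ} (hS : 1 ≤ S) (hκ : 0 < κ) (huv : u ≤ v) (hlen : v - u ≤ 1)
    (hmax : ∀ t ∈ Icc u v, κ * S ^ 2 ≤ |f1 t| ∨ κ * S ^ 2 ≤ |f2 t|)
    (hV : ∫ t in u..v, |f2 t| / (f1 t ^ 2 + S ^ 2) ≤ 2 * Real.pi / S) :
    ‖∫ t in u..v, Complex.exp (2 * Real.pi * Complex.I * (f t : ℂ))‖ ≤
      (2 + 1 / κ ^ 2 + 2 * Real.pi / κ) / S := by
  have hS0 : 0 < S := by linarith
  have hπ : 0 < Real.pi := Real.pi_pos
  have hc1 : Continuous f1 := continuous_iff_continuousAt.2 fun t => (h2 t).continuousAt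
  have hc0 : Continuous f := continuous_iff_continuousAt.2 fun t => (h1 t).continuousAt
  have hpos : ∀ t, 0 < f1 t ^ 2 + S ^ 2 := fun t => by positivity
  set E : ℝ → ℂ := fun t => Complex.exp (2 * Real.pi * Complex.I * (f t : ℂ)) with hE
  have hEc : Continuous E := by
    rw [hE]
    fun_prop
  have hEn : ∀ t, ‖E t‖ = 1 := by
    intro t
    have e : (2 * Real.pi * Complex.I * (f t : ℂ)) = ((2 * Real.pi * f t : ℝ) : ℂ) * Complex.I := by
      push_cast
      ring
    simp only [hE]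
    rw [e, Complex.norm_exp_ofReal_mul_I]
  have hEd : ∀ t, HasDerivAt E (E t * (2 * Real.pi * Complex.I * (f1 t : ℂ))) t := by
    intro t
    exact (((h1 t).ofReal_comp).const_mul (2 * Real.pi * Complex.I)).cexp
  set G : ℝ → ℝ := fun t => f1 t / (f1 t ^ 2 + S ^ 2) with hG
  set G' : ℝ → ℝ := fun t => f2 t * (S ^ 2 - f1 t ^ 2) / (f1 t ^ 2 + S ^ 2) ^ 2 with hG'
  have hGd : ∀ t, HasDerivAt G (G' t) t := by
    intro t
    have h3 : HasDerivAt (fun t => f1 t / (f1 t ^ 2 + S ^ 2)) _ t :=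
      (h2 t).div (((h2 t).pow 2).add_const (S ^ 2)) (hpos t).ne'
    refine h3.congr_deriv ?_
    simp only [hG']
    congr 1
    push_cast
    ring
  have hGc' : Continuous G' := by
    rw [hG']
    exact (hc.mul (by fun_prop)).div (by fun_prop) fun t => (pow_pos (hpos t) 2).ne'
  have hGc : Continuous G := by
    rw [hG]
    exact hc1.div (by fun_prop) fun t => (hpos t).ne'
  have hGb : ∀ t, |G t| ≤ 1 / (2 * S) := by
    intro t
    simp only [hG]
    rw [abs_div, abs_of_pos (hpos t), div_le_div_iff₀ (hpos t) (by positivity)]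
    have := sq_nonneg (|f1 t| - S)
    have h4 : |f1 t| ^ 2 = f1 t ^ 2 := sq_abs _
    nlinarith
  have hGb' : ∀ t, |G' t| ≤ |f2 t| / (f1 t ^ 2 + S ^ 2) := by
    intro t
    simp only [hG']
    have h4 : |S ^ 2 - f1 t ^ 2| ≤ f1 t ^ 2 + S ^ 2 := by
      rw [abs_le]
      constructor <;> nlinarith [sq_nonneg (f1 t), sq_nonneg S]
    rw [abs_div, abs_mul, abs_of_pos (pow_pos (hpos t) 2), div_le_div_iff₀ (pow_pos (hpos t) 2)
      (hpos t)]
    calc |f2 t| * |S ^ 2 - f1 t ^ 2| * (f1 t ^ 2 + S ^ 2)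
        ≤ |f2 t| * (f1 t ^ 2 + S ^ 2) * (f1 t ^ 2 + S ^ 2) := by
          refine mul_le_mul_of_nonneg_right ?_ (hpos t).le
          exact mul_le_mul_of_nonneg_left h4 (abs_nonneg _)
      _ = |f2 t| * (f1 t ^ 2 + S ^ 2) ^ 2 := by ring
  have hVc : Continuous fun t => |f2 t| / (f1 t ^ 2 + S ^ 2) :=
    hc.abs.div (by fun_prop) fun t => (hpos t).ne'
  -- the part with `G f1`
  have hparts : ∫ t in u..v, (((G' t : ℝ) : ℂ) * E t +
      (G t : ℂ) * (E t * (2 * Real.pi * Complex.I * (f1 t : ℂ)))) =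
      (G v : ℂ) * E v - (G u : ℂ) * E u := by
    refine intervalIntegral.integral_eq_sub_of_hasDerivAt
      (fun t _ => ((hGd t).ofReal_comp).mul (hEd t)) ?_
    refine Continuous.intervalIntegrable ?_ _ _
    fun_prop
  have hI1 : Continuous fun t => ((G' t : ℝ) : ℂ) * E t := by fun_prop
  have hI2 : Continuous fun t => (((G t * f1 t : ℝ)) : ℂ) * E t := by fun_prop
  have hI3 : Continuous fun t => (((S ^ 2 / (f1 t ^ 2 + S ^ 2) : ℝ)) : ℂ) * E t := by
    have : Continuous fun t => S ^ 2 / (f1 t ^ 2 + S ^ 2) :=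
      continuous_const.div (by fun_prop) fun t => (hpos t).ne'
    fun_prop
  have hsplit : ∫ t in u..v, E t = (∫ t in u..v, (((G t * f1 t : ℝ)) : ℂ) * E t) +
      ∫ t in u..v, (((S ^ 2 / (f1 t ^ 2 + S ^ 2) : ℝ)) : ℂ) * E t := by
    rw [← intervalIntegral.integral_add (hI2.intervalIntegrable _ _) (hI3.intervalIntegrable _ _)]
    refine intervalIntegral.integral_congr fun t _ => ?_
    have e : G t * f1 t + S ^ 2 / (f1 t ^ 2 + S ^ 2) = 1 := by
      simp only [hG]
      have := (hpos t).ne'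
      field_simp
    rw [← add_mul, ← Complex.ofReal_add, e]
    simp
  have hp2 : (2 * Real.pi * Complex.I) * ∫ t in u..v, (((G t * f1 t : ℝ)) : ℂ) * E t =
      ((G v : ℂ) * E v - (G u : ℂ) * E u) - ∫ t in u..v, ((G' t : ℝ) : ℂ) * E t := by
    rw [← hparts, ← intervalIntegral.integral_const_mul,
      ← intervalIntegral.integral_sub (Continuous.intervalIntegrable (by fun_prop) _ _)
        (hI1.intervalIntegrable _ _)]
    refine intervalIntegral.integral_congr fun t _ => ?_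
    push_cast
    ring
  have hn1 : ‖∫ t in u..v, ((G' t : ℝ) : ℂ) * E t‖ ≤ 2 * Real.pi / S := by
    refine le_trans ?_ hV
    refine intervalIntegral.norm_integral_le_of_norm_le huv ?_ (hVc.intervalIntegrable _ _)
    refine Filter.Eventually.of_forall fun t _ => ?_
    rw [norm_mul, hEn, mul_one, Complex.norm_real, Real.norm_eq_abs]
    exact hGb' t
  have hn2 : ‖(G v : ℂ) * E v - (G u : ℂ) * E u‖ ≤ 1 / S := by
    refine (norm_sub_le _ _).trans ?_
    rw [norm_mul, norm_mul, hEn, hEn, mul_one, mul_one, Complex.norm_real, Complex.norm_real,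
      Real.norm_eq_abs, Real.norm_eq_abs]
    have e : 1 / S = 1 / (2 * S) + 1 / (2 * S) := by
      field_simp
      ring
    rw [e]
    exact add_le_add (hGb v) (hGb u)
  have hn3 : ‖∫ t in u..v, (((G t * f1 t : ℝ)) : ℂ) * E t‖ ≤ 2 / S := by
    have h5 : ‖(2 * Real.pi * Complex.I) * ∫ t in u..v, (((G t * f1 t : ℝ)) : ℂ) * E t‖ ≤
        1 / S + 2 * Real.pi / S := by
      rw [hp2]
      exact (norm_sub_le _ _).trans (add_le_add hn2 hn1)
    have e2 : ‖(2 * Real.pi * Complex.I : ℂ)‖ = 2 * Real.pi := by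
      simp [abs_of_pos hπ]
    rw [norm_mul, e2] at h5
    have h6 : 1 / S + 2 * Real.pi / S ≤ 2 * Real.pi * (2 / S) := by
      have h7 : 1 / S + 2 * Real.pi / S = (1 + 2 * Real.pi) / S := by ring
      have h8 : 2 * Real.pi * (2 / S) = (4 * Real.pi) / S := by ring
      rw [h7, h8]
      refine div_le_div_of_nonneg_right ?_ hS0.le
      have := Real.pi_gt_three
      linarith
    have h9 : 0 < 2 * Real.pi := by positivity
    exact le_of_mul_le_mul_left (h5.trans h6) h9
  have hn4 : ‖∫ t in u..v, (((S ^ 2 / (f1 t ^ 2 + S ^ 2) : ℝ)) : ℂ) * E t‖ ≤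
      (1 / κ ^ 2 + 2 * Real.pi / κ) / S := by
    have h10 : ‖∫ t in u..v, (((S ^ 2 / (f1 t ^ 2 + S ^ 2) : ℝ)) : ℂ) * E t‖ ≤
        ∫ t in u..v, (1 / (κ ^ 2 * S ^ 2) + 1 / κ * (|f2 t| / (f1 t ^ 2 + S ^ 2))) := by
      refine intervalIntegral.norm_integral_le_of_norm_le huv ?_
        (Continuous.intervalIntegrable (by fun_prop) _ _)
      refine Filter.Eventually.of_forall fun t ht => ?_
      have hp : (0 : ℝ) < κ ^ 2 * S ^ 2 := by positivity
      rw [norm_mul, hEn, mul_one, Complex.norm_real, Real.norm_eq_abs,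
        abs_of_pos (div_pos (by positivity) (hpos t))]
      rcases hmax t ⟨ht.1.le, ht.2⟩ with h | h
      · have h11 : S ^ 2 / (f1 t ^ 2 + S ^ 2) ≤ 1 / (κ ^ 2 * S ^ 2) := by
          rw [div_le_div_iff₀ (hpos t) hp]
          have h12 : (κ * S ^ 2) ^ 2 ≤ f1 t ^ 2 := by
            rw [← sq_abs (f1 t)]
            exact pow_le_pow_left₀ (by positivity) h 2
          nlinarith [sq_nonneg S]
        have h13 : 0 ≤ 1 / κ * (|f2 t| / (f1 t ^ 2 + S ^ 2)) :=
          mul_nonneg (by positivity) (div_nonneg (abs_nonneg _) (hpos t).le)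
        linarith
      · have h11 : S ^ 2 / (f1 t ^ 2 + S ^ 2) ≤ 1 / κ * (|f2 t| / (f1 t ^ 2 + S ^ 2)) := by
          rw [← mul_div_assoc]
          refine div_le_div_of_nonneg_right ?_ (hpos t).le
          rw [one_div, ← div_eq_inv_mul, le_div_iff₀ hκ]
          linarith
        have h13 : 0 ≤ 1 / (κ ^ 2 * S ^ 2) := by positivity
        linarith
    refine h10.trans ?_
    rw [intervalIntegral.integral_add (by simp) (Continuous.intervalIntegrable (by fun_prop) _ _),
      intervalIntegral.integral_const, intervalIntegral.integral_const_mul, smul_eq_mul]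
    have h14 : (v - u) * (1 / (κ ^ 2 * S ^ 2)) ≤ 1 / κ ^ 2 / S := by
      have h15 : 1 / (κ ^ 2 * S ^ 2) ≤ 1 / κ ^ 2 / S := by
        rw [div_div]
        refine one_div_le_one_div_of_le (by positivity) ?_
        refine mul_le_mul_of_nonneg_left ?_ (by positivity)
        nlinarith
      calc (v - u) * (1 / (κ ^ 2 * S ^ 2)) ≤ 1 * (1 / (κ ^ 2 * S ^ 2)) :=
            mul_le_mul_of_nonneg_right hlen (by positivity)
        _ ≤ 1 / κ ^ 2 / S := by rw [one_mul]; exact h15
    have h16 : 1 / κ * ∫ t in u..v, |f2 t| / (f1 t ^ 2 + S ^ 2) ≤ 1 / κ * (2 * Real.pi / S) :=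
      mul_le_mul_of_nonneg_left hV (by positivity)
    have e3 : (1 / κ ^ 2 + 2 * Real.pi / κ) / S = 1 / κ ^ 2 / S + 1 / κ * (2 * Real.pi / S) := by
      ring
    rw [e3]
    exact add_le_add h14 h16
  have e4 : (2 + 1 / κ ^ 2 + 2 * Real.pi / κ) / S = 2 / S + (1 / κ ^ 2 + 2 * Real.pi / κ) / S := by
    ring
  rw [e4]
  have e5 : ∫ t in u..v, Complex.exp (2 * Real.pi * Complex.I * (f t : ℂ)) = ∫ t in u..v, E t :=
    rfl
  rw [e5, hsplit]
  exact (norm_add_le _ _).trans (add_le_add hn3 hn4)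

/-- a monotone or antitone continuous function has at most one change of sign -/
theorem sign_split (k : ℝ → ℝ) (hk : Continuous k) (hm : Monotone k ∨ Antitone k) {u v : ℝ}
    (huv : u ≤ v) :
    ∃ w, u ≤ w ∧ w ≤ v ∧ ((∀ t ∈ Icc u w, 0 ≤ k t) ∨ (∀ t ∈ Icc u w, k t ≤ 0)) ∧
      ((∀ t ∈ Icc w v, 0 ≤ k t) ∨ (∀ t ∈ Icc w v, k t ≤ 0)) := by
  rcases hm with hm | hm
  · by_cases h0 : 0 ≤ k u
    · exact ⟨u, le_rfl, huv, Or.inl fun t ht => h0.trans (hm ht.1),
        Or.inl fun t ht => h0.trans (hm ht.1)⟩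
    by_cases h1 : k v ≤ 0
    · exact ⟨v, huv, le_rfl, Or.inr fun t ht => (hm ht.2).trans h1,
        Or.inr fun t ht => (hm ht.2).trans h1⟩
    rw [not_le] at h0 h1
    obtain ⟨w, hw, hw0⟩ := intermediate_value_Icc huv hk.continuousOn
      (show (0 : ℝ) ∈ Icc (k u) (k v) from ⟨h0.le, h1.le⟩)
    exact ⟨w, hw.1, hw.2, Or.inr fun t ht => (hm ht.2).trans hw0.le,
      Or.inl fun t ht => hw0.ge.trans (hm ht.1)⟩
  · by_cases h0 : k u ≤ 0
    · exact ⟨u, le_rfl, huv, Or.inr fun t ht => (hm ht.1).trans h0,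
        Or.inr fun t ht => (hm ht.1).trans h0⟩
    by_cases h1 : 0 ≤ k v
    · exact ⟨v, huv, le_rfl, Or.inl fun t ht => h1.trans (hm ht.2),
        Or.inl fun t ht => h1.trans (hm ht.2)⟩
    rw [not_le] at h0 h1
    obtain ⟨w, hw, hw0⟩ := intermediate_value_Icc' huv hk.continuousOn
      (show (0 : ℝ) ∈ Icc (k v) (k u) from ⟨h1.le, h0.le⟩)
    exact ⟨w, hw.1, hw.2, Or.inl fun t ht => hw0.ge.trans (hm ht.2),
      Or.inr fun t ht => (hm ht.1).trans hw0.le⟩

/-- the lower bound for `max |f'| |f''|`, one coefficient -/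
theorem low_one {c a b A X Y t : ℝ} (hc : 0 < c) (ha : c ≤ |a|) (ha' : |a| ≤ 1 / c)
    (hb' : |b| ≤ 1 / c) (hab : c ≤ |a - b|) (ht0 : 0 ≤ t) (ht1 : t ≤ 1)
    (hX : X = A * Real.exp (a * t)) :
    c ^ 2 * Real.exp (-(1 / c)) / (1 + 1 / c) * |A| ≤ max |a * X + b * Y|
      |a ^ 2 * X + b ^ 2 * Y| := by
  obtain ⟨m, hm⟩ : ∃ m, m = max |a * X + b * Y| |a ^ 2 * X + b ^ 2 * Y| := ⟨_, rfl⟩
  rw [← hm]
  have h1 : |a * X + b * Y| ≤ m := by rw [hm]; exact le_max_left _ _
  have h2 : |a ^ 2 * X + b ^ 2 * Y| ≤ m := by rw [hm]; exact le_max_right _ _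
  have hm0 : 0 ≤ m := (abs_nonneg _).trans h1
  have e : (a ^ 2 * X + b ^ 2 * Y) - b * (a * X + b * Y) = a * (a - b) * X := by ring
  have h3 : |a| * |a - b| * |X| ≤ m + 1 / c * m := by
    rw [← abs_mul, ← abs_mul, ← e]
    refine (abs_sub _ _).trans ?_
    rw [abs_mul]
    exact add_le_add h2 (mul_le_mul hb' h1 (abs_nonneg _) (by positivity))
  have h4 : Real.exp (-(1 / c)) * |A| ≤ |X| := by
    rw [hX, abs_mul, abs_of_pos (Real.exp_pos _), mul_comm]
    refine mul_le_mul_of_nonneg_left (Real.exp_le_exp.2 ?_) (abs_nonneg _)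
    have h5 : -(|a| * t) ≤ a * t := by
      have := neg_abs_le (a * t)
      rwa [abs_mul, abs_of_nonneg ht0] at this
    have h6 : |a| * t ≤ 1 / c * 1 := mul_le_mul ha' ht1 ht0 (by positivity)
    linarith
  have h7 : c ^ 2 * (Real.exp (-(1 / c)) * |A|) ≤ |a| * |a - b| * |X| := by
    have h8 : c ^ 2 ≤ |a| * |a - b| := by
      rw [pow_two]
      exact mul_le_mul ha hab hc.le (abs_nonneg _)
    exact mul_le_mul h8 h4 (by positivity) (by positivity)
  have h9 : 0 < 1 + 1 / c := by positivity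
  rw [div_mul_eq_mul_div, div_le_iff₀ h9]
  calc c ^ 2 * Real.exp (-(1 / c)) * |A| = c ^ 2 * (Real.exp (-(1 / c)) * |A|) := by ring
    _ ≤ m + 1 / c * m := h7.trans h3
    _ = m * (1 + 1 / c) := by ring

/-- **Van der Corput for two exponentials**, uniformly in the two rates. -/
theorem vdc : ∀ c : ℝ, 0 < c → ∃ C : ℝ, ∀ a b A B u v : ℝ, c ≤ |a| → |a| ≤ 1 / c → c ≤ |b| →
    |b| ≤ 1 / c → c ≤ |a - b| → 0 ≤ u → u ≤ v → v ≤ 1 → 1 ≤ max |A| |B| →
    ‖∫ t in u..v, Complex.exp (2 * Real.pi * Complex.I *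
      ((A * Real.exp (a * t) + B * Real.exp (b * t) : ℝ) : ℂ))‖ ≤
      C * (max |A| |B|) ^ (-(1 / 2) : ℝ) := by
  intro c hc
  obtain ⟨κ, hκ⟩ : ∃ κ, κ = c ^ 2 * Real.exp (-(1 / c)) / (1 + 1 / c) := ⟨_, rfl⟩
  have hκ0 : 0 < κ := by rw [hκ]; positivity
  refine ⟨2 + 1 / κ ^ 2 + 2 * Real.pi / κ, fun a b A B u v ha ha' hb hb' hab hu huv hv hM => ?_⟩
  obtain ⟨S, hS⟩ : ∃ S, S = Real.sqrt (max |A| |B|) := ⟨_, rfl⟩
  have hS1 : 1 ≤ S := by rw [hS]; exact Real.one_le_sqrt.2 hM
  have hS2 : S ^ 2 = max |A| |B| := by rw [hS]; exact Real.sq_sqrt (by linarith)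
  have hd : ∀ (a A t : ℝ), HasDerivAt (fun t => A * Real.exp (a * t))
      (a * A * Real.exp (a * t)) t := by
    intro a A t
    have h3 : HasDerivAt (fun t => A * Real.exp (a * t)) _ t :=
      (((hasDerivAt_id t).const_mul a).exp).const_mul A
    refine h3.congr_deriv ?_
    simp only [id]
    ring
  have hf1 : ∀ t, HasDerivAt (fun t => A * Real.exp (a * t) + B * Real.exp (b * t))
      (a * A * Real.exp (a * t) + b * B * Real.exp (b * t)) t :=
    fun t => (hd a A t).add (hd b B t)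
  have hf2 : ∀ t, HasDerivAt (fun t => a * A * Real.exp (a * t) + b * B * Real.exp (b * t))
      (a * (a * A) * Real.exp (a * t) + b * (b * B) * Real.exp (b * t)) t :=
    fun t => (hd a (a * A) t).add (hd b (b * B) t)
  have hcont : Continuous fun t : ℝ =>
      a * (a * A) * Real.exp (a * t) + b * (b * B) * Real.exp (b * t) := by fun_prop
  -- the sign of the second derivative
  have hk : Continuous fun t : ℝ => a * (a * A) + b * (b * B) * Real.exp ((b - a) * t) := by
    fun_prop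
  have hmono : Monotone (fun t : ℝ => a * (a * A) + b * (b * B) * Real.exp ((b - a) * t)) ∨
      Antitone (fun t : ℝ => a * (a * A) + b * (b * B) * Real.exp ((b - a) * t)) := by
    have h5 : Monotone (fun t : ℝ => Real.exp ((b - a) * t)) ∨
        Antitone (fun t : ℝ => Real.exp ((b - a) * t)) := by
      rcases le_total 0 (b - a) with h | h
      · left
        exact fun x y hxy => Real.exp_le_exp.2 (mul_le_mul_of_nonneg_left hxy h)
      · right
        exact fun x y hxy => Real.exp_le_exp.2 (mul_le_mul_of_nonpos_left hxy h)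
    rcases h5 with h5 | h5 <;> rcases le_total 0 (b * (b * B)) with h | h
    · left
      intro x y hxy
      have := mul_le_mul_of_nonneg_left (h5 hxy) h
      simp only at this ⊢
      linarith
    · right
      intro x y hxy
      have := mul_le_mul_of_nonpos_left (h5 hxy) h
      simp only at this ⊢
      linarith
    · right
      intro x y hxy
      have := mul_le_mul_of_nonneg_left (h5 hxy) h
      simp only at this ⊢
      linarith
    · left
      intro x y hxy
      have := mul_le_mul_of_nonpos_left (h5 hxy) h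
      simp only at this ⊢
      linarith
  have hfac : ∀ t : ℝ, a * (a * A) * Real.exp (a * t) + b * (b * B) * Real.exp (b * t) =
      Real.exp (a * t) * (a * (a * A) + b * (b * B) * Real.exp ((b - a) * t)) := by
    intro t
    have : Real.exp (b * t) = Real.exp (a * t) * Real.exp ((b - a) * t) := by
      rw [← Real.exp_add]
      congr 1
      ring
    rw [this]
    ring
  obtain ⟨w, huw, hwv, hs, hs'⟩ := sign_split _ hk hmono huv
  have hconv : ∀ x y : ℝ, ((∀ t ∈ Icc x y, 0 ≤ a * (a * A) + b * (b * B) *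
        Real.exp ((b - a) * t)) ∨ (∀ t ∈ Icc x y, a * (a * A) + b * (b * B) *
        Real.exp ((b - a) * t) ≤ 0)) →
      ((∀ t ∈ Icc x y, 0 ≤ a * (a * A) * Real.exp (a * t) + b * (b * B) * Real.exp (b * t)) ∨
        (∀ t ∈ Icc x y, a * (a * A) * Real.exp (a * t) + b * (b * B) * Real.exp (b * t) ≤ 0)) := by
    intro x y h
    rcases h with h | h
    · left
      intro t ht
      rw [hfac]
      exact mul_nonneg (Real.exp_pos _).le (h t ht)
    · right
      intro t ht
      rw [hfac]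
      exact mul_nonpos_of_nonneg_of_nonpos (Real.exp_pos _).le (h t ht)
  have hV := var_two _ _ hf2 hcont (by linarith : (0 : ℝ) < S) huw hwv (hconv _ _ hs)
    (hconv _ _ hs')
  have hmax : ∀ t ∈ Icc u v,
      κ * S ^ 2 ≤ |a * A * Real.exp (a * t) + b * B * Real.exp (b * t)| ∨
      κ * S ^ 2 ≤ |a * (a * A) * Real.exp (a * t) + b * (b * B) * Real.exp (b * t)| := by
    intro t ht
    rw [← le_max_iff, hS2, hκ]
    have ht0 : 0 ≤ t := hu.trans ht.1
    have ht1 : t ≤ 1 := ht.2.trans hv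
    have e1 : a * A * Real.exp (a * t) + b * B * Real.exp (b * t) =
        a * (A * Real.exp (a * t)) + b * (B * Real.exp (b * t)) := by ring
    have e2 : a * (a * A) * Real.exp (a * t) + b * (b * B) * Real.exp (b * t) =
        a ^ 2 * (A * Real.exp (a * t)) + b ^ 2 * (B * Real.exp (b * t)) := by ring
    rw [e1, e2]
    have h6 := low_one (A := A) (X := A * Real.exp (a * t)) (Y := B * Real.exp (b * t)) hc ha ha'
      hb' hab ht0 ht1 rfl
    have h7 := low_one (A := B) (X := B * Real.exp (b * t)) (Y := A * Real.exp (a * t)) hc hb hb'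
      ha' (by rw [abs_sub_comm]; exact hab) ht0 ht1 rfl
    rw [add_comm (b * (B * Real.exp (b * t))), add_comm (b ^ 2 * (B * Real.exp (b * t)))] at h7
    rcases le_total |A| |B| with h | h
    · rw [max_eq_right h]
      exact h7
    · rw [max_eq_left h]
      exact h6
  have hfin := vdc_core _ _ _ hf1 hf2 hcont hS1 hκ0 huv (by linarith) hmax hV
  refine hfin.trans (le_of_eq ?_)
  rw [div_eq_mul_inv]
  congr 1
  rw [Real.rpow_neg (by linarith), ← Real.sqrt_eq_rpow, hS]

end

end Pool.Agent.H88.WY
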